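import Pool.Agent.Y518.CC.FStm

/-!
# The generic colouring (job 1240, project Y518-CC)
-/

set_option autoImplicit false

namespace Pool.Agent.Y279.CC

open Pool.Agent.W868 Pool.Agent.W868.PName Pool.Agent.W910 Pool.Agent.W910.SY
open MeasureTheory
open Pool.Agent.W910.BG (code code_injective)
open Pool.Agent.Y518.CC
open ZFSet (pair)

variable {k : ℕ} {Γ : SimpleGraph (ℕ → ℕ)} {D : Dat k Γ}

theorem measurable_lbc (a : LF k) (c : Fin (k + 1)) :
    MeasurableSet {u : Om k | (u (lb a)).2 = c} :=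
  (measurable_snd.comp (measurable_pi_apply (lb a))) (measurableSet_singleton c)

/-- The colour at a label is decided by a dense set of conditions. -/
theorem dec_dense (a : LF k) (q : Cn D) :
    ∃ r ≤ q, r ∈ {r : Cn D | ∃ c, ∀ u ∈ r.1, (u (lb a)).2 = c} := by
  by_contra hcon
  push Not at hcon
  have h1 : ∀ c : Fin (k + 1), D.μ (q.1 ∩ {u : Om k | (u (lb a)).2 = c}) = 0 := by
    intro c
    by_contra h2
    exact hcon ⟨_, q.2.1.inter (measurable_lbc a c), h2⟩ Set.inter_subset_left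
      ⟨c, fun u hu => hu.2⟩
  apply q.2.2
  have h3 : q.1 ⊆ ⋃ c : Fin (k + 1), q.1 ∩ {u : Om k | (u (lb a)).2 = c} := fun u hu =>
    Set.mem_iUnion.2 ⟨(u (lb a)).2, hu, rfl⟩
  exact measure_mono_null h3 (measure_iUnion_null h1)

section

variable {π : Pkg (Cn D)} {R : Set (Rule (Cn D))} (hR : ClR R π) (hRR : ruR D ⊆ R)
  (hC : ruC D ⊆ R) {x : Om k} (hx : IsPt π x)

include hR hC

theorem hul_evN {a : LF k} (ha : Hul π a) : Hul π (evN a) :=
  r1_mem hR (F := fun (a : LF k) _ => (check (cd (evN a)) : PName (Cn D)))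
    (hC (Or.inl (Or.inl rfl))) ha 0

open Classical in
theorem exists_label (hF : S_FAC) {f : NR k} (hf : Hul π f) : ∃ a : LF k, Hul π a ∧ evN a = f := by
  have h1 : ∃ a : LF k, evN a = f := hF k f
  have h2 := r1_mem hR (F := fun (f : NR k) _ => if h : ∃ a : LF k, evN a = f then
    (check (cd h.choose) : PName (Cn D)) else emp) (hC (by simp [ruC])) hf 0
  simp only [dif_pos h1] at h2
  exact ⟨_, h2, h1.choose_spec⟩

include hRR hx

/-- The colour of a label at the generic point. -/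
theorem col_mem {a : LF k} (ha : Hul π a) :
    pair (code ((evN a).1 x)) (nat ((x (lb a)).2 : ℕ)) ∈ π.val (colN D) := by
  have h1 := r1_mem hR (F := fun (a : LF k) _ =>
    Sys.nm (Cn D) {r | ∃ c, ∀ u ∈ r.1, (u (lb a)).2 = c}) (hC (by simp [ruC])) ha 0
  obtain ⟨m, -, c, hc⟩ := gen_dense' π (m := 0) h1
    (fun r ⟨c, hc⟩ q hq => ⟨c, fun u hu => hc u (hq hu)⟩) (fun q _ => dec_dense a q)
  have h2 : realN D (evN a) ∈ π.N := r1_mem hR (F := fun (f : NR k) _ => realN D f)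
    (hRR (by simp [ruR])) (hul_evN hR hC ha) 0
  have h3 : (check (nat (c : ℕ)) : PName (Cn D)) ∈ π.N := π.nat_Z _
  have h4 : (x (lb a)).2 = c := hc x (hx.1 m)
  have h5 : El (colN D) (opN (realN D (evN a)) (check (nat (c : ℕ)))) (π.g m) :=
    ⟨⟨((a, c), π.g m), hc⟩, rfl, rfl⟩
  have h6 := π.val_mem_val (π.opN_mem h2 h3) h5 le_rfl
  rw [π.val_opN h2 h3, hx.2.2 _ (hul_evN hR hC ha)] at h6
  have h7 : π.val (check (nat (c : ℕ))) = nat (c : ℕ) := π.hat_nat _
  rwa [h7, ← h4] at h6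

open Classical in
/-- The elements of the colouring. -/
theorem of_col {z : ZFSet.{0}} (hz : z ∈ π.val (colN D)) : ∃ (a : LF k) (c : Fin (k + 1)),
    Hul π a ∧ z = pair (code ((evN a).1 x)) (nat (c : ℕ)) ∧ (x (lb a)).2 = c := by
  obtain ⟨w, hw, p, ⟨⟨⟨⟨a₀, c⟩, q⟩, hq⟩, rfl, rfl⟩, ⟨m, hm⟩, rfl⟩ := π.mem_val.1 hz
  have h1 : realN D (evN a₀) ∈ π.N := π.fst_mem hw
  have h2 : ∃ a : LF k, realN D (evN a₀) = realN D (evN a) := ⟨a₀, rfl⟩
  have h3 := r0_mem hR (F := fun y _ => if h : ∃ a : LF k, y = realN D (evN a) then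
    (check (cd h.choose) : PName (Cn D)) else emp) (hC (by simp [ruC])) h1 0
  simp only [dif_pos h2] at h3
  obtain ⟨a, ha, haa⟩ : ∃ a : LF k, Hul π a ∧ realN D (evN a₀) = realN D (evN a) :=
    ⟨_, h3, h2.choose_spec⟩
  have h4 : (check (nat (c : ℕ)) : PName (Cn D)) ∈ π.N := π.nat_Z _
  have h7 : π.val (check (nat (c : ℕ))) = nat (c : ℕ) := π.hat_nat _
  refine ⟨a, c, ha, ?_, ?_⟩
  · change π.val (opN (realN D (evN a₀)) (check (nat (c : ℕ)))) = _
    rw [haa, π.val_opN (haa ▸ h1) h4, hx.2.2 _ (hul_evN hR hC ha), h7]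
  · -- the two names agree almost everywhere
    have h8 : ∀ (n l : ℕ) (B : Cn D), (∀ u ∈ B.1, (evN a₀).1 u n = l) →
        ∀ u ∈ B.1, (evN a).1 u n = l := by
      intro n l B hB
      have h9 : El (realN D (evN a)) (check (pair (nat n) (nat l))) B := by
        rw [← haa]
        exact ⟨⟨((n, l), B), hB⟩, rfl, rfl⟩
      obtain ⟨⟨⟨⟨n', l'⟩, B'⟩, hB'⟩, e1, e2⟩ := h9
      have e3 := ZFSet.pair_inj.1 (check_injective e1)
      have e4 : n' = n := nat_injective e3.1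
      have e5 : l' = l := nat_injective e3.2
      have e6 : B' = B := e2
      subst e4 e5 e6
      exact hB'
    have h9 : ∀ᵐ u ∂D.μ, (evN a₀).1 u = (evN a).1 u := by
      have h10 : ∀ n l : ℕ, ∀ᵐ u ∂D.μ, ¬ ((evN a₀).1 u n = l ∧ (evN a).1 u n ≠ l) := by
        intro n l
        rw [ae_iff]
        simp only [not_not]
        by_contra h11
        have hms : MeasurableSet {u : Om k | (evN a₀).1 u n = l ∧ (evN a).1 u n ≠ l} := by
          have e1 : MeasurableSet {u : Om k | (evN a₀).1 u n = l} :=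
            ((measurable_pi_apply n).comp (evN a₀).2) (measurableSet_singleton l)
          have e2 : MeasurableSet {u : Om k | (evN a).1 u n = l} :=
            ((measurable_pi_apply n).comp (evN a).2) (measurableSet_singleton l)
          exact e1.inter e2.compl
        let B : Cn D := ⟨_, hms, h11⟩
        obtain ⟨u, hu⟩ := B.nonempty
        exact hu.2 (h8 n l B (fun v hv => hv.1) u hu)
      have h12 : ∀ᵐ u ∂D.μ, ∀ n l : ℕ, ¬ ((evN a₀).1 u n = l ∧ (evN a).1 u n ≠ l) :=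
        ae_all_iff.2 fun n => ae_all_iff.2 fun l => h10 n l
      filter_upwards [h12] with u hu
      funext n
      by_contra h13
      exact hu n _ ⟨rfl, fun h14 => h13 h14.symm⟩
    have h15 : ∀ᵐ u ∂D.μ, u ∈ {u : Om k | u ∈ (π.g m).1 → (u (lb a)).2 = c} := by
      filter_upwards [h9, D.eqc a₀.1 a.1 a₀.2 a.2] with u hu1 hu2 hu3
      have h16 : (u (lb a₀)).2 = (u (lb a)).2 := hu2 hu1
      rw [← h16]
      exact hq u (hm hu3)
    have h17 := r1_mem hR (F := fun (a : LF k) p =>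
      (check (cd {u : Om k | u ∈ p.1 → (u (lb a)).2 = c}) : PName (Cn D)))
      (hC (Or.inr ⟨c, rfl⟩)) ha m
    exact hx.2.1 _ h17 h15 (hx.1 m)

end

/-- **The colouring.** -/
theorem main (hF : S_FAC) : S_COL := by
  intro k Γ D π R hR hRR hP hC x hx _
  refine ⟨fun f hf => ?_, fun z hz => ?_, fun y c c' h1 h2 => ?_, fun y y' hyy c c' h1 h2 => ?_⟩
  · obtain ⟨a, ha, rfl⟩ := exists_label hR hC hF hf
    exact ⟨_, col_mem hR hRR hC hx ha⟩
  · obtain ⟨a, c, ha, hz', -⟩ := of_col hR hRR hC hx hz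
    exact ⟨_, c, hul_evN hR hC ha, hz'⟩
  · obtain ⟨a, c₁, ha, e1, e2⟩ := of_col hR hRR hC hx h1
    obtain ⟨b, c₂, hb, e3, e4⟩ := of_col hR hRR hC hx h2
    obtain ⟨e5, e6⟩ := ZFSet.pair_inj.1 e1
    obtain ⟨e7, e8⟩ := ZFSet.pair_inj.1 e3
    have e9 : c = c₁ := Fin.ext (nat_injective e6)
    have e10 : c' = c₂ := Fin.ext (nat_injective e8)
    have e11 := code_injective e5
    have e12 := code_injective e7
    have h3 := r2_mem hR (F := fun (a b : LF k) _ => (check (cd {u : Om k |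
      (evN a).1 u = (evN b).1 u → (u (lb a)).2 = (u (lb b)).2}) : PName (Cn D)))
      (hC (by simp [ruC])) ha hb 0
    have h4 := hx.2.1 _ h3 (D.eqc a.1 b.1 a.2 b.2) (e11.symm.trans e12)
    rw [e9, e10, ← e2, ← e4]
    exact h4
  · obtain ⟨a, c₁, ha, e1, e2⟩ := of_col hR hRR hC hx h1
    obtain ⟨b, c₂, hb, e3, e4⟩ := of_col hR hRR hC hx h2
    obtain ⟨e5, e6⟩ := ZFSet.pair_inj.1 e1
    obtain ⟨e7, e8⟩ := ZFSet.pair_inj.1 e3
    have e9 : c = c₁ := Fin.ext (nat_injective e6)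
    have e10 : c' = c₂ := Fin.ext (nat_injective e8)
    have e11 := code_injective e5
    have e12 := code_injective e7
    have h3 := r2_mem hR (F := fun (a b : LF k) _ => (check (cd {u : Om k |
      Γ.Adj ((evN a).1 u) ((evN b).1 u) → (u (lb a)).2 ≠ (u (lb b)).2}) : PName (Cn D)))
      (hC (by simp [ruC])) ha hb 0
    have h4 := hx.2.1 _ h3 (D.adj a.1 b.1 a.2 b.2) (by rw [← e11, ← e12]; exact hyy)
    rw [e9, e10, ← e2, ← e4]
    exact h4

end Pool.Agent.Y279.CC
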